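import Pool.Agent.W610.HY.Stm3

set_option autoImplicit false

namespace Pool.Agent.W884.HY.NZM

open Pool.Agent.W610.HY
open MeasureTheory Set Metric Filter Topology

/-- the measure on the angles -/
noncomputable abbrev mu : Measure ℝ := volume.restrict (Ioc (0:ℝ) (2 * Real.pi))

theorem dist_lower (c : ℂ) (r : ℝ) (hr : 0 < r) (l : ℂ) (θ : ℝ) :
    r - ‖l - c‖ ≤ ‖circleMap c r θ - l‖ := by
  have h1 : ‖circleMap c r θ - c‖ = r := by
    rw [circleMap_sub_center]
    simp [circleMap, abs_of_pos hr]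
  have h2 : circleMap c r θ - l = (circleMap c r θ - c) - (l - c) := by ring
  have h3 := norm_sub_norm_le (circleMap c r θ - c) (l - c)
  rw [h1, ← h2] at h3
  exact h3

theorem meas_inv (c : ℂ) (r : ℝ) (l : ℂ) :
    Measurable (fun θ : ℝ => (circleMap c r θ - l)⁻¹) :=
  (((continuous_circleMap c r).measurable).sub_const l).inv

section
variable {E : Type} [NormedAddCommGroup E] [NormedSpace ℂ E]

theorem int_F (k : ℝ → E) (hk : Integrable k mu) (c : ℂ) (r : ℝ) (hr : 0 < r) (l : ℂ)
    (hl : l ∈ ball c r) : Integrable (fun θ => (circleMap c r θ - l)⁻¹ • k θ) mu := by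
  rw [mem_ball, dist_eq_norm] at hl
  refine Integrable.mono' (hk.norm.const_mul (r - ‖l - c‖)⁻¹)
    ((meas_inv c r l).aestronglyMeasurable.smul hk.aestronglyMeasurable) ?_
  refine Eventually.of_forall fun θ => ?_
  rw [norm_smul, norm_inv]
  have h1 := dist_lower c r hr l θ
  have h2 : 0 < r - ‖l - c‖ := by linarith
  gcongr

theorem diff_F [CompleteSpace E] (k : ℝ → E) (hk : Integrable k mu) (c : ℂ) (r : ℝ) (hr : 0 < r) :
    DifferentiableOn ℂ (fun l : ℂ => ∫ θ, (circleMap c r θ - l)⁻¹ • k θ ∂mu) (ball c r) := by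
  intro l0 hl0
  have hl0' := hl0
  rw [mem_ball, dist_eq_norm] at hl0'
  set ε : ℝ := (r - ‖l0 - c‖) / 2 with hε
  have hε0 : 0 < ε := by rw [hε]; linarith
  have hlow : ∀ l ∈ ball l0 ε, ∀ θ : ℝ, ε ≤ ‖circleMap c r θ - l‖ := by
    intro l hl θ
    rw [mem_ball, dist_eq_norm] at hl
    have h1 := dist_lower c r hr l θ
    have h2 : ‖l - c‖ ≤ ‖l - l0‖ + ‖l0 - c‖ := by
      have : l - c = (l - l0) + (l0 - c) := by ring
      rw [this]; exact norm_add_le _ _
    rw [hε] at hl ⊢
    linarith
  have hne : ∀ l ∈ ball l0 ε, ∀ θ : ℝ, circleMap c r θ - l ≠ 0 := by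
    intro l hl θ h
    have := hlow l hl θ
    rw [h, norm_zero] at this
    linarith
  have key := hasDerivAt_integral_of_dominated_loc_of_deriv_le (μ := mu) (𝕜 := ℂ)
    (F := fun l θ => (circleMap c r θ - l)⁻¹ • k θ)
    (F' := fun l θ => ((circleMap c r θ - l) ^ 2)⁻¹ • k θ) (x₀ := l0) (s := ball l0 ε)
    (bound := fun θ => (ε ^ 2)⁻¹ * ‖k θ‖)
    (ball_mem_nhds l0 hε0)
    (Eventually.of_forall fun l =>
      (meas_inv c r l).aestronglyMeasurable.smul hk.aestronglyMeasurable)
    (int_F k hk c r hr l0 hl0)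
    (by
      refine AEStronglyMeasurable.smul ?_ hk.aestronglyMeasurable
      exact ((((continuous_circleMap c r).measurable).sub_const l0).pow_const 2).inv.aestronglyMeasurable)
    (by
      refine Eventually.of_forall fun θ l hl => ?_
      rw [norm_smul, norm_inv, norm_pow]
      have := hlow l hl θ
      gcongr)
    (hk.norm.const_mul _)
    (by
      refine Eventually.of_forall fun θ l hl => ?_
      have h1 : HasDerivAt (fun y : ℂ => circleMap c r θ - y) (-1) l := by
        simpa using (hasDerivAt_id l).const_sub (circleMap c r θ)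
      have h2 := (h1.inv (hne l hl θ)).smul_const (k θ)
      have h3 : (- -1 / (circleMap c r θ - l) ^ 2 : ℂ) = ((circleMap c r θ - l) ^ 2)⁻¹ := by
        rw [neg_neg, one_div]
      rw [h3] at h2
      exact h2)
  exact key.2.differentiableAt.differentiableWithinAt

end

theorem main : Pool.Agent.W610.HY.NZM := by
  intro E _ _ _ T x P f c r h hf hP hG hIV
  have hr := hG.pos
  have hpi : (0:ℝ) ≤ 2 * Real.pi := by positivity
  have hu : ∀ θ : ℝ, ‖circleMap 0 1 θ‖ = 1 := by
    intro θ; simp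
  have hz : ∀ θ : ℝ, circleMap c r θ - c = (r : ℂ) * circleMap 0 1 θ := by
    intro θ; simp [circleMap]
  set k0 : ℝ → ℂ := fun θ => h θ * circleMap 0 1 θ with hk0def
  set k1 : ℝ → E := fun θ => (h θ * circleMap 0 1 θ) • f (circleMap c r θ) with hk1def
  have hk0m : Measurable k0 := hG.meas.mul (continuous_circleMap 0 1).measurable
  have hk1m : AEStronglyMeasurable k1 mu := by
    refine AEStronglyMeasurable.smul hk0m.aestronglyMeasurable ?_
    exact (hf.comp_measurable (continuous_circleMap c r).measurable).aestronglyMeasurable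
  have : IsFiniteMeasure mu := by
    constructor
    rw [Measure.restrict_apply_univ]
    exact measure_Ioc_lt_top
  have hk0 : Integrable k0 mu := by
    refine Integrable.mono' (integrable_const (1:ℝ)) hk0m.aestronglyMeasurable ?_
    filter_upwards [hG.le_one] with θ hθ
    rw [hk0def]
    simp only [norm_mul, hu, mul_one]
    exact hθ
  have hk1 : Integrable k1 mu := by
    refine Integrable.mono' (integrable_const (1:ℝ)) hk1m ?_
    filter_upwards [hG.bound] with θ hθ
    rw [hk1def]
    simp only [norm_smul, norm_mul, hu, mul_one]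
    exact hθ
  set Φ : ℂ → E := fun l => ∫ θ, (circleMap c r θ - l)⁻¹ • k1 θ ∂mu with hΦ
  set I : ℂ → ℂ := fun l => ∫ θ, (circleMap c r θ - l)⁻¹ • k0 θ ∂mu with hI
  have hΦd : DifferentiableOn ℂ Φ (ball c r) := diff_F k1 hk1 c r hr
  have hId : DifferentiableOn ℂ I (ball c r) := diff_F k0 hk0 c r hr
  have hIV' : ∫ θ, k1 θ ∂mu = 0 := by
    rw [← hIV]
    unfold IV
    rw [intervalIntegral.integral_of_le hpi]
  have heq : ∀ l ∈ ball c r, l • Φ l - T (Φ l) = I l • x := by
    intro l hl
    have hne : ∀ θ : ℝ, circleMap c r θ - l ≠ 0 := by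
      intro θ h0
      have := dist_lower c r hr l θ
      rw [h0, norm_zero] at this
      rw [mem_ball, dist_eq_norm] at hl
      linarith
    have i1 := int_F k1 hk1 c r hr l hl
    have i0 := int_F k0 hk0 c r hr l hl
    have e1 : l • Φ l = ∫ θ, l • ((circleMap c r θ - l)⁻¹ • k1 θ) ∂mu := by
      rw [hΦ]; exact (integral_smul l _).symm
    have e2 : T (Φ l) = ∫ θ, T ((circleMap c r θ - l)⁻¹ • k1 θ) ∂mu := by
      rw [hΦ]; exact (T.integral_comp_comm i1).symm
    have e3 : I l • x = ∫ θ, ((circleMap c r θ - l)⁻¹ • k0 θ) • x ∂mu := by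
      rw [hI]; exact (integral_smul_const _ x).symm
    have i1' : Integrable (fun θ => l • ((circleMap c r θ - l)⁻¹ • k1 θ)) mu := i1.smul l
    have i1T : Integrable (fun θ => T ((circleMap c r θ - l)⁻¹ • k1 θ)) mu :=
      T.integrable_comp i1
    have i0x : Integrable (fun θ => ((circleMap c r θ - l)⁻¹ • k0 θ) • x) mu := i0.smul_const x
    rw [e1, e2, e3, ← integral_sub i1' i1T]
    have e4 : ∫ θ, ((circleMap c r θ - l)⁻¹ • k0 θ) • x ∂mu
        = ∫ θ, (((circleMap c r θ - l)⁻¹ • k0 θ) • x - k1 θ) ∂mu := by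
      rw [integral_sub i0x hk1, hIV', sub_zero]
    rw [e4]
    refine integral_congr_ae ?_
    filter_upwards [hG.res] with θ hθ
    have hPz := hP _ hθ
    have hT : T (f (circleMap c r θ)) = circleMap c r θ • f (circleMap c r θ) - x := by
      rw [← hPz]; abel
    simp only [hk0def, hk1def, map_smul, hT, smul_sub, smul_smul, smul_eq_mul]
    have hn := hne θ
    have a1 : l * ((circleMap c r θ - l)⁻¹ * (h θ * circleMap 0 1 θ))
        - (circleMap c r θ - l)⁻¹ * (h θ * circleMap 0 1 θ) * circleMap c r θ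
        = - (h θ * circleMap 0 1 θ) := by
      field_simp
      ring
    have a2 : (l * ((circleMap c r θ - l)⁻¹ * (h θ * circleMap 0 1 θ))) • f (circleMap c r θ)
        - ((circleMap c r θ - l)⁻¹ * (h θ * circleMap 0 1 θ) * circleMap c r θ) • f (circleMap c r θ)
        = - ((h θ * circleMap 0 1 θ) • f (circleMap c r θ)) := by
      rw [← sub_smul, a1, neg_smul]
    have a3 : ∀ a b d e : E, a - b = - e → a - (b - d) = d - e := by
      intro a b d e hab
      have h5 : a = b - e := by
        have h6 := sub_eq_iff_eq_add.mp hab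
        rw [h6]; abel
      rw [h5]; abel
    exact a3 _ _ _ _ a2
  have hIc : I c ≠ 0 := by
    have e1 : I c = (r : ℂ)⁻¹ * ∫ θ in (0:ℝ)..(2 * Real.pi), h θ := by
      rw [intervalIntegral.integral_of_le hpi, ← integral_const_mul, hI]
      refine integral_congr_ae (Eventually.of_forall fun θ => ?_)
      simp only [hk0def, smul_eq_mul, hz θ]
      have h1 : circleMap 0 1 θ ≠ 0 := by
        intro h0
        have := hu θ
        rw [h0, norm_zero] at this
        exact zero_ne_one this
      have h2 : (r : ℂ) ≠ 0 := by exact_mod_cast hr.ne'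
      field_simp
    rw [e1]
    exact mul_ne_zero (inv_ne_zero (by exact_mod_cast hr.ne')) hG.ne
  have hcont : ContinuousAt I c :=
    (hId.differentiableAt (ball_mem_nhds c hr)).continuousAt
  have hev : ∀ᶠ l in 𝓝 c, I l ≠ 0 ∧ l ∈ ball c r :=
    (hcont.eventually_ne hIc).and (ball_mem_nhds c hr)
  obtain ⟨δ, hδ, hsub⟩ := Metric.eventually_nhds_iff_ball.mp hev
  refine ⟨δ, fun l => (I l)⁻¹ • Φ l, hδ, ?_, ?_⟩
  · have hss : ball c δ ⊆ ball c r := fun l hl => (hsub l hl).2
    exact ((hId.mono hss).inv (fun l hl => (hsub l hl).1)).smul (hΦd.mono hss)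
  · intro l hl
    obtain ⟨h1, h2⟩ := hsub l hl
    have h3 := heq l h2
    have h4 : l • ((I l)⁻¹ • Φ l) - T ((I l)⁻¹ • Φ l) = (I l)⁻¹ • (l • Φ l - T (Φ l)) := by
      rw [map_smul, smul_comm, smul_sub]
    show l • ((I l)⁻¹ • Φ l) - T ((I l)⁻¹ • Φ l) = x
    rw [h4, h3, smul_smul, inv_mul_cancel₀ h1, one_smul]

end Pool.Agent.W884.HY.NZM
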